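import Pool.Agent.H900R3.Dir.Pos

set_option autoImplicit false

open Set Filter Topology MeasureTheory
open scoped ContDiff

namespace Pool.Agent.Results.MP_65d49d_gt.DirichletMultiplicity

/-- A Riemannian surface (without boundary) carrying a global conformal coordinate: `X` is a second
countable Hausdorff space, `π : X → ℂ` is a local homeomorphism, the smooth structure of `X` is the
one in which the local inverses of `π` are charts, and the Riemannian metric is `ρ |dπ|²`, where the
function `ρ : X → ℝ` is smooth and positive. -/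
structure Surf where
  /-- the points -/
  X : Type
  /-- the topology -/
  top : TopologicalSpace X
  /-- it is Hausdorff -/
  t2 : T2Space X
  /-- it is second countable -/
  second : SecondCountableTopology X
  /-- the conformal coordinate -/
  π : X → ℂ
  /-- the coordinate is a local homeomorphism -/
  isLoc : IsLocalHomeomorph π
  /-- the conformal factor -/
  ρ : X → ℝ
  /-- it is positive -/
  ρ_pos : ∀ x, 0 < ρ x
  /-- it is smooth -/
  ρ_smooth : ∀ x, ContDiffAt ℝ ∞ (fun z => ρ (isLoc.localInverseAt x z)) (π x)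

instance (S : Surf) : TopologicalSpace S.X := S.top

/-- `u` is of class `C^n` on the surface, that is, in all the charts `(π near x)⁻¹`. -/
def Surf.IsC (S : Surf) (n : WithTop ℕ∞) (u : S.X → ℝ) : Prop :=
  ∀ x, ContDiffAt ℝ n (fun z => u (S.isLoc.localInverseAt x z)) (S.π x)

/-- The differential of `u` at `x`, in the coordinate `π`; its values at `1` and `i` are the partial
derivatives `u_x` and `u_y`. -/
noncomputable def Surf.d (S : Surf) (u : S.X → ℝ) (x : S.X) : ℂ →L[ℝ] ℝ :=
  fderiv ℝ (fun z => u (S.isLoc.localInverseAt x z)) (S.π x)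

/-- The Dirichlet energy `∫ |∇u|² dA`. As `|∇u|² = (u_x² + u_y²) / ρ` and `dA = ρ dx dy`, it is the
integral of `u_x² + u_y²` for the area pulled back by the local homeomorphism `π`, that is, the
integral over the plane of the sums over the fibres of `π`. -/
noncomputable def Surf.energy (S : Surf) (u : S.X → ℝ) : ℝ :=
  ∫ z : ℂ, ∑ᶠ x ∈ S.π ⁻¹' {z}, ((S.d u x 1) ^ 2 + (S.d u x Complex.I) ^ 2)

/-- The squared `L²` norm `∫ u² dA`, where `dA = ρ dx dy`. -/
noncomputable def Surf.mass (S : Surf) (u : S.X → ℝ) : ℝ :=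
  ∫ z : ℂ, ∑ᶠ x ∈ S.π ⁻¹' {z}, S.ρ x * u x ^ 2

/-- `K`, with the metric of `S`, is a surface with boundary: it is compact and connected, and it is
a sublevel set `{F ≤ 0}` of a smooth function `F` whose differential vanishes nowhere on the
boundary `{F = 0}`, and the boundary is not empty. -/
structure Surf.IsSurfaceWithBoundary (S : Surf) (K : Set S.X) : Prop where
  isCompact : IsCompact K
  isConnected : IsConnected K
  boundary : ∃ F : S.X → ℝ, S.IsC ∞ F ∧ K = {x | F x ≤ 0} ∧ (∀ x, F x = 0 → S.d F x ≠ 0) ∧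
    ∃ x, F x = 0

/-- The Dirichlet eigenvalue `ν_k` of `K`, `k = 0, 1, 2, …`, by the min-max principle: the infimum of
the numbers `s` such that there is a space, of dimension `k + 1`, of `C¹` functions vanishing outside
`K`, on which `∫ |∇u|² dA ≤ s ∫ u² dA`. -/
noncomputable def Surf.ν (S : Surf) (K : Set S.X) (k : ℕ) : ℝ :=
  sInf {s : ℝ | ∃ w : Fin (k + 1) → S.X → ℝ, LinearIndependent ℝ w ∧
    (∀ i, S.IsC 1 (w i) ∧ ∀ x, x ∉ K → w i x = 0) ∧
    ∀ c : Fin (k + 1) → ℝ, S.energy (∑ i, c i • w i) ≤ s * S.mass (∑ i, c i • w i)}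

/-- The multiplicity `m_k` of `ν_k`: the number of indices `j` with `ν_j = ν_k`. -/
noncomputable def Surf.mult (S : Surf) (K : Set S.X) (k : ℕ) : ℕ∞ :=
  {j : ℕ | S.ν K j = S.ν K k}.encard

open Pool.Agent.H900R3.Dir in
/-- the surface -/
noncomputable def surf (m : ℕ) [Fact m.Prime] : Surf where
  X := Curve m
  top := inferInstance
  t2 := inferInstance
  second := inferInstance
  π := pr
  isLoc := hp
  ρ := fun x => rho (pr x)
  ρ_pos := fun x => rho_pos _
  ρ_smooth := smooth_pull contDiff_rho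

open Pool.Agent.H900R3.Dir in
theorem energy_eq {m : ℕ} [Fact m.Prime] (u : Curve m → ℝ) : (surf m).energy u = FI (ip u u) := by
  unfold Surf.energy FI
  congr 1; funext z
  refine finsum_mem_congr rfl fun x _ => ?_
  show dAt hp u x 1 ^ 2 + dAt hp u x Complex.I ^ 2 = _
  unfold ip; ring

open Pool.Agent.H900R3.Dir in
theorem mass_eq {m : ℕ} [Fact m.Prime] (u : Curve m → ℝ) : (surf m).mass u = FI (mp rho u u) := by
  unfold Surf.mass FI
  congr 1; funext z
  refine finsum_mem_congr rfl fun x _ => ?_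
  show rho (pr x) * u x ^ 2 = _
  unfold mp; ring

open Pool.Agent.H900R3.Dir in
theorem nu_eq {m : ℕ} [Fact m.Prime] {r : ℝ} (h2 : m ≠ 2) (hr : 0 < r) (k : ℕ) :
    (surf m).ν (KK m r) k = mm (fun w : TW m r => DD hr h2 w w)
      (fun w : TW m r => BB hr h2 contDiff_rho.continuous w w) k := by
  unfold Surf.ν mm
  congr 1
  ext s
  constructor
  · rintro ⟨w, hw, hw1, hw2⟩
    let w' : Fin (k + 1) → TW m r := fun i => ⟨w i, (hw1 i).1, (hw1 i).2⟩
    have hsum : ∀ c : Fin (k + 1) → ℝ, (∑ i, c i • w' i).1 = ∑ i, c i • w i := by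
      intro c
      rw [Submodule.coe_sum]
      rfl
    refine ⟨w', LinearIndependent.of_comp (Submodule.subtype _) hw, fun c => ?_⟩
    have h3 := hw2 c
    rw [← hsum, energy_eq, mass_eq] at h3
    exact h3
  · rintro ⟨w, hw, hw2⟩
    have hsum : ∀ c : Fin (k + 1) → ℝ, (∑ i, c i • w i).1 = ∑ i, c i • (w i).1 := by
      intro c
      rw [Submodule.coe_sum]
      rfl
    refine ⟨fun i => (w i).1, hw.map' (Submodule.subtype _) (Submodule.ker_subtype _),
      fun i => ⟨(w i).2.1, (w i).2.2⟩, fun c => ?_⟩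
    have h3 := hw2 c
    have key : (surf m).energy (∑ i, c i • w i).1 ≤ s * (surf m).mass (∑ i, c i • w i).1 := by
      rw [energy_eq, mass_eq]
      exact h3
    rw [hsum] at key
    exact key

/-- **For every `k ≥ 1` and every `N` there is a surface with boundary whose `k`-th Dirichlet
eigenvalue has multiplicity greater than `N`.** -/
theorem result (k : ℕ) (hk : 1 ≤ k) (N : ℕ) : ∃ (S : Surf) (K : Set S.X),
    S.IsSurfaceWithBoundary K ∧ 0 < S.ν K k ∧ (N : ℕ∞) < S.mult K k := by
  obtain ⟨m, hm1, hm2⟩ := Nat.exists_infinite_primes (k + N + 3)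
  haveI : Fact m.Prime := ⟨hm2⟩
  have h2 : m ≠ 2 := by omega
  obtain ⟨r, hr0, hr4, hS⟩ := Pool.Agent.H900R3.Dir.exists_rad m
  obtain ⟨Λ, hΛ0, hΛ⟩ := Pool.Agent.H900R3.Dir.mm_final (m := m) h2 hr0 hr4
  have hν : ∀ j, 1 ≤ j → j < m → (surf m).ν (Pool.Agent.H900R3.Dir.KK m r) j = Λ := by
    intro j h1 h3
    rw [nu_eq h2 hr0]
    exact hΛ j h1 h3
  refine ⟨surf m, Pool.Agent.H900R3.Dir.KK m r, ⟨?_, ?_, ?_⟩, ?_, ?_⟩
  · exact Pool.Agent.H900R3.Dir.isCompact_KK hr0
  · exact Pool.Agent.H900R3.Dir.connected_KK h2 hr0 hr4 hS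
  · refine ⟨fun x => Pool.Agent.H900R3.Dir.FF m r (Pool.Agent.H900R3.Dir.pr x),
      Pool.Agent.H900R3.Dir.smooth_pull Pool.Agent.H900R3.Dir.contDiff_FF,
      Pool.Agent.H900R3.Dir.KK_eq hr0 hr4 hS, ?_, Pool.Agent.H900R3.Dir.bdry_point h2⟩
    intro x hx
    have h3 := Pool.Agent.H900R3.Dir.dAt_pull (Pool.Agent.H900R3.Dir.FF m r) x
    have h4 := Pool.Agent.H900R3.Dir.FF_grad hr0 hr4 hS hx
    intro h5
    exact h4 (h3.symm.trans h5)
  · rw [hν k hk (by omega)]
    exact hΛ0
  · have h3 : ((Finset.Icc 1 (m - 1) : Finset ℕ) : Set ℕ) ⊆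
        {j : ℕ | (surf m).ν (Pool.Agent.H900R3.Dir.KK m r) j =
          (surf m).ν (Pool.Agent.H900R3.Dir.KK m r) k} := by
      intro j hj
      simp only [Finset.coe_Icc, mem_Icc] at hj
      show (surf m).ν _ j = (surf m).ν _ k
      rw [hν j hj.1 (by omega), hν k hk (by omega)]
    have h4 := Set.encard_le_encard h3
    rw [Set.encard_coe_eq_coe_finsetCard, Nat.card_Icc] at h4
    refine lt_of_lt_of_le ?_ h4
    have h5 : N < m - 1 + 1 - 1 := by omega
    exact_mod_cast h5

end Pool.Agent.Results.MP_65d49d_gt.DirichletMultiplicity
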